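import Mathlib
import Pool.Agent.H15.TEmb3

namespace Pool.Agent.Results.MP_4f6efa_gt.NotExtral
open Pool.Agent.H15.TEmb unitInterval Set Topology

/-- `X` is t-extral: it is t-embedded in every Tychonoff space containing it as a closed
subspace. -/
def TExtral (X : Type) [TopologicalSpace X] : Prop :=
  ∀ (Y : Type) [TopologicalSpace Y] [T35Space Y] (j : X → Y), IsClosedEmbedding j → TEmb j

/-- An index set of order type `ω_1`. -/
abbrev Omega1 : Type := (Ordinal.omega 1).ToType

theorem unc : Uncountable Omega1 := by
  rw [← Cardinal.aleph0_lt_mk_iff, Cardinal.mk_toType, Ordinal.card_omega]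
  exact Cardinal.aleph0_lt_aleph_one

theorem main (ι : Type) [Uncountable ι] : ¬ TExtral (ι → Bool) := by
  classical
  intro h
  let j : (ι → Bool) → ι → I := fun x a => if x a = true then 1 else 0
  have hj : Continuous j := continuous_pi fun a =>
    (continuous_of_discreteTopology (f := fun b : Bool => if b = true then (1 : I) else 0)).comp
      (continuous_apply a)
  have hi : Function.Injective j := by
    intro x y hxy
    ext a
    have := congrFun hxy a
    simp only [j] at this
    revert this
    cases x a <;> cases y a <;> simp
  refine not_temb j (fun A hA => ?_) (h _ j (hj.isClosedEmbedding hi))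
  obtain ⟨a, ha⟩ : ∃ a, a ∉ A := by
    by_contra h
    push Not at h
    exact not_countable_univ (hA.mono fun a _ => h a)
  refine ⟨⟨fun x => x a, continuous_apply a⟩, fun _ => false, fun b => decide (b = a), rfl,
    by simp, fun b hb => ?_⟩
  have : b ≠ a := fun h => ha (h ▸ hb)
  simp [j, this]

/-- The Cantor cube of weight `ω_1` (or any uncountable weight) is not t-extral; more generally
every zero-dimensional compact t-extral space is metrizable. -/
theorem result :
    ¬ TExtral (Omega1 → Bool) ∧ (∀ (ι : Type) [Uncountable ι], ¬ TExtral (ι → Bool)) ∧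
      ∀ (X : Type) [TopologicalSpace X] [CompactSpace X] [T2Space X] [TotallyDisconnectedSpace X],
        TExtral X → TopologicalSpace.MetrizableSpace X :=
  ⟨@main _ unc, main, fun X _ _ _ _ h =>
    metrizable_of_temb _ (cube_emb X).continuous (h _ _ (cube_emb X))⟩

end Pool.Agent.Results.MP_4f6efa_gt.NotExtral
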